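import Pool.Agent.helper44.NLT.Spec

/-!
# Project nl: HYI, hyperbolicity spreads over the interior of `M_n`
-/

set_option autoImplicit false

open Complex Metric Set Filter Topology MeasureTheory MPS
open Pool.Agent.helper98.ILF Pool.Agent.helper16.Multibrot

noncomputable section

namespace NLT

/-- at a repelling parameter the critical orbit lands on the cycle. -/
theorem HYI_land (hXIB : XIB_stmt) (hREP : REP_stmt) (n : ℕ) (hn : 2 ≤ n) (p j : ℕ) (α : ℂ → ℂ) (x : ℂ)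
    (hfix : (fun w : ℂ => w ^ n + x)^[p] (α x) = α x)
    (ht : Tendsto (fun k : ℕ => xi n (j + (k + 1) * p) x - xi n (j + k * p) x) atTop (𝓝 0))
    (hcl : ∀ ε > (0 : ℝ), ∀ K : ℕ, ∃ k ≥ K, ‖xi n (j + k * p) x - α x‖ < ε)
    (hl : 1 < ‖deriv ((fun w : ℂ => w ^ n + x)^[p]) (α x)‖) : ∃ k, xi n (j + k * p) x = α x := by
  obtain ⟨-, -, -, hit, -⟩ := hXIB n hn
  have hd : Differentiable ℂ (fun w : ℂ => w ^ n + x) := by fun_prop
  refine hREP ((fun w : ℂ => w ^ n + x)^[p]) (α x) (fun k => xi n (j + k * p) x) ((hd.iterate p) _) hfix hl ?_ ht hcl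
  intro k
  show xi n (j + (k + 1) * p) x = (fun w : ℂ => w ^ n + x)^[p] (xi n (j + k * p) x)
  rw [hit (j + k * p) p x]
  congr 1
  ring

theorem HYI (hXIB : XIB_stmt) (hALP : ALP_stmt) (hREP : REP_stmt) (hBAI : BAI_stmt) : HYI_stmt := by
  intro n c hn hint hcl
  obtain ⟨r, hr, hball⟩ := Metric.isOpen_iff.mp isOpen_interior c hint
  have hball' : ball c r ⊆ multibrot n := hball.trans interior_subset
  obtain ⟨c₁, hc₁, hc₁r⟩ : ∃ c₁ ∈ hyperbolic n, c₁ ∈ ball c r := by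
    obtain ⟨b, hb, hbr⟩ := Metric.mem_closure_iff.mp hcl r hr
    exact ⟨b, hb, by rw [mem_ball, dist_comm]; exact hbr⟩
  obtain ⟨p, j, α, hp, hα, hlam, hlam1, hx⟩ := hALP n c c₁ r hn hball' hc₁r hc₁
  have hle : ∀ x ∈ ball c r, ‖deriv ((fun w : ℂ => w ^ n + x)^[p]) (α x)‖ ≤ 1 := by
    intro c₂ hc₂
    by_contra hgt
    push Not at hgt
    have hcont : ContinuousAt (fun x => deriv ((fun w : ℂ => w ^ n + x)^[p]) (α x)) c₂ :=
      (hlam.differentiableAt (isOpen_ball.mem_nhds hc₂)).continuousAt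
    have h1 : ∀ᶠ x in 𝓝 c₂, 1 < ‖deriv ((fun w : ℂ => w ^ n + x)^[p]) (α x)‖ :=
      hcont.norm.eventually (lt_mem_nhds hgt)
    have h2 : ∀ᶠ x in 𝓝 c₂, x ∈ ball c r := isOpen_ball.mem_nhds hc₂
    obtain ⟨ε, hε, hεs⟩ := Metric.eventually_nhds_iff_ball.mp (h1.and h2)
    have hsub : closedBall c₂ (ε / 2) ⊆ ball c₂ ε := closedBall_subset_ball (by linarith)
    obtain ⟨k, hk⟩ := hBAI (fun k x => xi n (j + k * p) x) α c c₂ r (ε / 2) (by linarith)
      (fun x hxm => (hεs x (hsub hxm)).2) (fun k => ((hXIB n hn).2.1 _).differentiableOn) hα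
      (fun x hxm => HYI_land hXIB hREP n hn p j α x (hx x (hεs x (hsub hxm)).2).1 (hx x (hεs x (hsub hxm)).2).2.1
        (hx x (hεs x (hsub hxm)).2).2.2 (hεs x (hsub hxm)).1)
    refine (hXIB n hn).2.2.2.2 (j + k * p) p c r hp hr ?_
    intro x hxb
    have hk' : xi n (j + k * p) x = α x := hk x hxb
    rw [← (hXIB n hn).2.2.2.1 (j + k * p) p x, hk']
    exact (hx x hxb).1
  have hlt : ‖deriv ((fun w : ℂ => w ^ n + c)^[p]) (α c)‖ < 1 := by
    by_contra hge
    push Not at hge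
    have hmax : IsMaxOn (norm ∘ (fun x => deriv ((fun w : ℂ => w ^ n + x)^[p]) (α x))) (ball c r) c :=
      fun x hxb => (hle x hxb).trans hge
    have heq := Complex.eqOn_of_isPreconnected_of_isMaxOn_norm (convex_ball c r).isPreconnected isOpen_ball hlam
      (mem_ball_self hr) hmax
    have h3 : deriv ((fun w : ℂ => w ^ n + c₁)^[p]) (α c₁) = deriv ((fun w : ℂ => w ^ n + c)^[p]) (α c) := heq hc₁r
    rw [h3] at hlam1
    exact absurd hlam1 (not_lt.mpr hge)
  exact ⟨α c, p, hp, (hx c (mem_ball_self hr)).1, hlt⟩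

end NLT
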